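import Pool.Agent.Helper45.CF.GoalsC
import Pool.Agent.Helper45.CF.Asm

/-!
# Project CF (MP_d97caa_an), second stage: theories vanish on the CAR algebra
-/

open scoped ComplexOrder
open TopologicalSpace

namespace Pool.Agent.Helper45.CF2.ZCAR

open Pool.Agent.Helper34.CAR Pool.Agent.Helper39.CR Pool.Agent.Helper45.CF

noncomputable section

/-- The map induced by a function into the smaller algebra. -/
def conn {A B M : Type} [CStarAlgebra A] [CStarAlgebra B] [CStarAlgebra M] (f : A →⋆ₐ[ℂ] M)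
    (g : B →⋆ₐ[ℂ] M) (hg : Function.Injective g) (c : A → B) (hc : ∀ a, g (c a) = f a) :
    A →⋆ₙₐ[ℂ] B where
  toFun a := c a
  map_smul' r a := by
    apply hg
    rw [MonoidHom.id_apply, hc, map_smul, map_smul, hc]
  map_zero' := by
    apply hg
    rw [hc, map_zero, map_zero]
  map_add' a b := by
    apply hg
    rw [hc, map_add, map_add, hc, hc]
  map_mul' a b := by
    apply hg
    rw [hc, map_mul, map_mul, hc, hc]
  map_star' a := by
    apply hg
    rw [hc, map_star, map_star, hc]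

theorem sep_mt (n : ℕ) : SeparableSpace (CStarMatrix (Fin n) (Fin n) ℂ) := by
  have hf : FiniteDimensional ℂ (CStarMatrix (Fin n) (Fin n) ℂ) :=
    inferInstanceAs (FiniteDimensional ℂ (Matrix (Fin n) (Fin n) ℂ))
  have hp : ProperSpace (CStarMatrix (Fin n) (Fin n) ℂ) := FiniteDimensional.proper ℂ _
  have hc : SecondCountableTopology (CStarMatrix (Fin n) (Fin n) ℂ) := secondCountable_of_proper
  infer_instance

theorem zero_mt' (T : Theory) (n : ℕ) (hn : 0 < n) : T.Zero (Mt (Fin n) ℂ) := by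
  intro i x
  have : SeparableSpace (Mt (Fin n) ℂ) := sep_mt n
  have hb : Function.Bijective (T.map i
      (Pool.Agent.Helper36.CR.cornH (⟨0, hn⟩ : Fin n) : ℂ →⋆ₙₐ[ℂ] Mt (Fin n) ℂ)) :=
    T.stable i ℂ (Mt (Fin n) ℂ) (Fin n) Pool.Agent.Helper36.CR.mu
      Pool.Agent.Helper36.CR.munits ⟨0, hn⟩ _ (fun _ => rfl)
  apply hb.1
  rw [map_zero]
  exact T.point i _

theorem zero_mt (T : Theory) (n : ℕ) (hn : 0 < n) : T.Zero (CStarMatrix (Fin n) (Fin n) ℂ) :=
  zero_mt' T n hn

theorem t : S_ZCAR := by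
  intro T M _ _ hM
  obtain ⟨e, j, -, hj, hr, hd⟩ := hM
  have : ∀ k, SeparableSpace (CStarMatrix (Fin (2 ^ e k)) (Fin (2 ^ e k)) ℂ) := fun k => sep_mt _
  choose c hc using fun k a => hr k ⟨a, rfl⟩
  exact zero_union T M (fun k => CStarMatrix (Fin (2 ^ e k)) (Fin (2 ^ e k)) ℂ)
    (fun k => conn (j k) (j (k + 1)) (hj (k + 1)) (c k) (hc k)) (fun k => (j k : _ →⋆ₙₐ[ℂ] M)) hj
    (fun k b => hc k b) hd fun k => zero_mt T _ (by positivity)

end

end Pool.Agent.Helper45.CF2.ZCAR
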